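import Pool.Agent.Helper90_ABY.VS2
import Pool.Agent.Helper10_ABY.TSP
import Pool.Agent.Helper13_ABY.VFR
import Pool.Agent.Helper53_ABY.VKL
import Pool.Agent.Helper69_ABY.VTH
import Pool.Agent.Helper81_ABY.VRG
import Pool.Agent.Helper59_ABY.VJT
import Pool.Agent.Helper19_ABY.VGR
import Pool.Agent.Helper41_ABY.VDR
import Pool.Agent.Helper41_ABY.VBL
import Pool.Agent.Helper92_AFJ.BKJ
import Pool.Agent.Helper1_AFJ.ENB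
import Pool.Agent.Helper54_LQX.All

/-!
# Block Y (the `Θ` threshold inside a stage): the rows without hypotheses
-/

set_option autoImplicit false

open scoped BigOperators Matrix

noncomputable section

namespace Pool.Agent.ABY.H90

open Pool.Agent.LE.QF Pool.Agent.AFJ Pool.Agent.ABY

theorem vexT : ∀ (𝕜 : Type) [RCLike 𝕜] (X : Type) [Fintype X] [DecidableEq X] (M : Matrix X X 𝕜)
    (K : Matrix X X ℝ) (P g : X → ℝ) (U A : Finset X) (ρ : ℝ), Cmp M K P g U A ρ →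
    IsUnit (1 - M * dg 𝕜 P).det ∧
    (∀ (w : X → ℝ) (a : X), vir M P w a = ∑ b, M a b * psi P w (vir M P w) b) ∧
    (∀ (w : X → ℝ) (be : X → 𝕜), (∀ a, be a = ∑ b, M a b * psi P w be b) → be = vir M P w) ∧
    (∀ (h : X → 𝕜) (c : ℝ), 0 ≤ c → (∀ a ∈ A, ‖h a‖ ≤ c * g a) →
      ∀ a ∈ A, ‖(TT M P *ᵥ h) a‖ ≤ c / (1 - ρ) * g a) ∧
    ∀ w : X → ℝ, (∀ x, 0 ≤ w x) → ∀ a ∈ A, ‖vir M P w a‖ ≤ vir K P w a := by
  exact Pool.Agent.ABY.H82.vex Pool.Agent.ABY.H10.cmp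

theorem tspT : ∀ (𝕜 : Type) [RCLike 𝕜] (X : Type) [Fintype X] [DecidableEq X]
    (M : Matrix X X 𝕜) (K : Matrix X X ℝ) (P g : X → ℝ) (U A : Finset X) (ρ : ℝ),
    Cmp M K P g U A ρ → ∀ (ι : Type) (b : Finset ι) (h : ι → X → 𝕜) (V : ℝ), 0 ≤ V →
      (∀ a ∈ A, ∑ c ∈ b, ‖h c a‖ ^ 2 ≤ (V * g a) ^ 2) →
        ∀ a ∈ A, ∑ c ∈ b, ‖(TT M P *ᵥ h c) a‖ ^ 2 ≤ (V / (1 - ρ) * g a) ^ 2 := by
  exact Pool.Agent.ABY.H10.tsp Pool.Agent.ABY.H10.cmp Pool.Agent.ABY.H82.vex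

theorem vstT : ∀ (X : Type) [Fintype X] [DecidableEq X] (G : Matrix X X ℂ) (g : X → ℝ)
    (R : Finset X) (s e θ : ℝ), 0 < s → 0 ≤ e → e < 1 → 0 ≤ θ → (∀ a ∈ R, 0 < g a) →
    (∀ a ∈ R, ∑ b ∈ R, KK G a b * (s * g b) ≤ (1 + e) * g a) →
    Yin G 0 (fun x => ind R x * (s * g x)) g R θ →
      Yin G (fun x => ind R x * (s / 2)) (fun x => ind R x * (s / 2 * g x)) g R
        ((1 + θ) / (1 - e) - 1) := by
  exact Pool.Agent.ABY.H44.vst_ Pool.Agent.ABY.H10.cmp Pool.Agent.ABY.H82.vex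

theorem vfrT : ∀ (X : Type) [Fintype X] [DecidableEq X] (G : Matrix X X ℂ)
    (P w g : X → ℝ) (U R N : Finset X) (ρ : ℝ), Cmp (BB G) (KK G) P g U R ρ → N ⊆ R →
    (∀ x, 0 ≤ w x) → ∀ a ∈ R,
      ‖vir (BB G) (fun x => (1 - ind N x) * P x) (fun x => (1 - ind N x) * w x) a‖ +
        vir (KK G) (fun x => (1 - ind N x) * P x) (fun x => (1 - ind N x) * w x) a ≤
      ‖vir (BB G) P w a‖ + vir (KK G) P w a := by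
  exact Pool.Agent.ABY.H13.vfr Pool.Agent.ABY.H10.cmp Pool.Agent.ABY.H82.vex

theorem vklT : ∀ (X : Type) [Fintype X] [DecidableEq X] (G : Matrix X X ℂ) (g : X → ℝ)
    (R D : Finset X) (s e θ : ℝ), 0 < s → 0 ≤ e → e < 1 → 0 ≤ θ → D ⊆ R → (∀ a ∈ R, 0 < g a) →
    (∀ a ∈ R, ∑ b ∈ D, KK G a b * (s * g b) ≤ e * g a) →
    Yin G 0 (fun x => ind R x * (s * g x)) g R θ →
      Yin G (fun x => ind D x * s) (fun x => ind (R \ D) x * (s * g x)) g R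
        ((1 + θ) / (1 - e) - 1) := by
  exact Pool.Agent.ABY.H53.vkl Pool.Agent.ABY.H10.cmp Pool.Agent.ABY.H82.vex

theorem vjtT : ∀ (𝕜 : Type) [RCLike 𝕜] (X : Type) [Fintype X] [DecidableEq X]
    (b : Finset X) (q : ℝ × (b → ℝ)) (M : ℝ × (b → ℝ) → Matrix X X 𝕜) (v e : Matrix X X 𝕜)
    (gM : b → Matrix X X 𝕜) (Pf : ℝ → X → ℝ) (P w : X → ℝ),
    HM M q v gM (v * dg 𝕜 (ind b) * v + e) →
    (∀ x, ContDiffAt ℝ 2 (fun t => Pf t x) q.1 ∧ Pf q.1 x = P x ∧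
      deriv (fun t => Pf t x) q.1 = -ind b x) →
    IsUnit (1 - v * dg 𝕜 P).det → ∀ a,
      HJ (fun r => vir (M r) (Pf r.1) w a) q (vir v P w a)
        (fun c => (TT v P *ᵥ (gM c *ᵥ psi P w (vir v P w))) a)
        ((TT v P *ᵥ (e *ᵥ psi P w (vir v P w))) a +
          ∑ c, (TT v P *ᵥ (gM c *ᵥ (dg 𝕜 P *ᵥ (TT v P *ᵥ
            (gM c *ᵥ psi P w (vir v P w)))))) a) := by
  exact Pool.Agent.ABY.H59.vjt Pool.Agent.LE.QX.H54.jalT Pool.Agent.LE.QX.H54.jmaT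

theorem vgrT : ∀ c₀ C₀ : ℝ, ∃ C : ℝ, 1 ≤ C ∧
    ∀ (X : Type) [Fintype X] [DecidableEq X] (G : Matrix X X ℂ) (κ P w g : X → ℝ) (μ : X → ℂ)
      (b U R : Finset X) (κv μs Λ : ℝ), YBl G κ P w g μ b U R c₀ C₀ κv μs Λ →
      Cmp (BB G) (KK G) P g U R (3 / 4) ∧ Cmp (KK G) (KK G) P g U R (3 / 4) ∧
      (∀ y, ‖psi P w (vir (BB G) P w) y‖ ≤ 4 * κ y ∧ |psi P w (vir (KK G) P w) y| ≤ 4 * κ y) ∧
      (∀ a ∈ R, ∑ c ∈ b, ‖(TT (BB G) P *ᵥ (dB G c *ᵥ psi P w (vir (BB G) P w))) a‖ ^ 2 ≤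
        C * Real.sqrt (Λ / κv)) ∧
      ∀ a ∈ R, ∑ c ∈ b, ((TT (KK G) P *ᵥ (dK G c *ᵥ psi P w (vir (KK G) P w))) a) ^ 2 ≤
        C * Real.sqrt (Λ / κv) := by
  exact Pool.Agent.ABY.H19.vgr Pool.Agent.ABY.H10.cmp Pool.Agent.ABY.H82.vex Pool.Agent.ABY.H10.tsp

theorem vdrT : ∀ c₀ C₀ : ℝ, ∃ C : ℝ, 1 ≤ C ∧
    ∀ (X : Type) [Fintype X] [DecidableEq X] (G : Matrix X X ℂ) (κ P w g : X → ℝ) (μ : X → ℂ)
      (b U R : Finset X) (κv μs Λ : ℝ), YBl G κ P w g μ b U R c₀ C₀ κv μs Λ → ∀ a ∈ R,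
      ‖(TT (BB G) P *ᵥ (EB G μ *ᵥ psi P w (vir (BB G) P w))) a +
          ∑ c ∈ b, (TT (BB G) P *ᵥ (dB G c *ᵥ (dg ℂ P *ᵥ (TT (BB G) P *ᵥ
            (dB G c *ᵥ psi P w (vir (BB G) P w)))))) a‖ ≤
        C * (μs / κv + Real.sqrt (Real.sqrt (Λ / κv)) / Real.sqrt κv) ∧
      |(TT (KK G) P *ᵥ (EK G μ *ᵥ psi P w (vir (KK G) P w))) a +
          ∑ c ∈ b, (TT (KK G) P *ᵥ (dK G c *ᵥ (dg ℝ P *ᵥ (TT (KK G) P *ᵥ
            (dK G c *ᵥ psi P w (vir (KK G) P w)))))) a| ≤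
        C * (μs / κv + Real.sqrt (Real.sqrt (Λ / κv)) / Real.sqrt κv) := by
  exact Pool.Agent.ABY.H41.vdr Pool.Agent.ABY.H10.cmp Pool.Agent.ABY.H82.vex Pool.Agent.ABY.H10.tsp Pool.Agent.ABY.H19.vgr Pool.Agent.AFJ.H1.enb

theorem vblT : ∀ c₀ C₀ : ℝ, ∃ C : ℝ, 1 ≤ C ∧
    ∀ (X : Type) [Fintype X] [DecidableEq X] (b : Finset X) (q : ℝ × (b → ℝ))
      (Gm : ℝ × (b → ℝ) → Matrix X X ℂ) (kf : ℝ → X → ℝ) (G : Matrix X X ℂ) (κ : X → ℝ)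
      (mb : X → ℂ) (Pf : ℝ → X → ℝ) (P w g : X → ℝ) (U R : Finset X) (κv μs Λ : ℝ),
      BJ q Gm kf G κ mb →
      (∀ x, ContDiffAt ℝ 2 (fun t => Pf t x) q.1 ∧ Pf q.1 x = P x ∧
        deriv (fun t => Pf t x) q.1 = -ind b x) →
      YBl G κ P w g (mub G mb b) b U R c₀ C₀ κv μs Λ → ∀ a ∈ R,
      (∃ (g' : b → ℂ) (l' : ℂ), HJ (fun r => vir (BB (Gm r)) (Pf r.1) w a) q
          (vir (BB G) P w a) g' l' ∧ ∑ c, ‖g' c‖ ^ 2 ≤ C * Real.sqrt (Λ / κv) ∧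
        ‖l'‖ ≤ C * (μs / κv + Real.sqrt (Real.sqrt (Λ / κv)) / Real.sqrt κv)) ∧
      ∃ (g' : b → ℝ) (l' : ℝ), HJ (fun r => vir (KK (Gm r)) (Pf r.1) w a) q
          (vir (KK G) P w a) g' l' ∧ ∑ c, g' c ^ 2 ≤ C * Real.sqrt (Λ / κv) ∧
        |l'| ≤ C * (μs / κv + Real.sqrt (Real.sqrt (Λ / κv)) / Real.sqrt κv) := by
  exact Pool.Agent.ABY.H41.vbl Pool.Agent.LE.QX.H54.jalT Pool.Agent.LE.QX.H54.jmaT Pool.Agent.AFJ.H92.bkj Pool.Agent.AFJ.H1.enb Pool.Agent.ABY.H10.cmp Pool.Agent.ABY.H82.vex Pool.Agent.ABY.H10.tsp Pool.Agent.ABY.H59.vjt Pool.Agent.ABY.H19.vgr Pool.Agent.ABY.H41.vdr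

theorem vthT : VthStmt := Pool.Agent.ABY.H69.vth

theorem vrgT : VrgStmt := Pool.Agent.ABY.H81.vrg

end Pool.Agent.ABY.H90
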