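import Pool.Agent.Helper44_ABY.VST
import Pool.Agent.Helper10_ABY.CMP
import Pool.Agent.Helper82_ABY.VEX

/-!
# Block Y: the start of a stage, general final clock

All running sites have the clock `s`, the final clock of the stage is `lam ≤ s`.
-/

set_option autoImplicit false

open scoped BigOperators Matrix

noncomputable section

namespace Pool.Agent.ABY.H90

open Pool.Agent.LE.QF Pool.Agent.AFJ Pool.Agent.ABY Pool.Agent.ABY.H44

variable {X : Type} [Fintype X] [DecidableEq X]

omit [DecidableEq X] in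
theorem eqn' {𝕜 : Type} [RCLike 𝕜] (M : Matrix X X 𝕜) (P w w' : X → ℝ) (r : ℝ) (be : X → 𝕜)
    (hv : ∀ a, be a = ∑ b, M a b * psi P w be b) (hw : ∀ b, w b = r * w' b) (a : X) :
    be a - ∑ b, M a b * (((P b : ℝ) : 𝕜) * be b) =
      ((r : ℝ) : 𝕜) * ∑ b, M a b * ((w' b : ℝ) : 𝕜) := by
  conv_lhs => rw [hv a]
  rw [← Finset.sum_sub_distrib, Finset.mul_sum]
  refine Finset.sum_congr rfl fun b _ => ?_
  unfold psi
  rw [hw b]
  push_cast
  ring

/-- VS2: the start of a stage, final clock `lam` -/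
theorem vs2 (G : Matrix X X ℂ) (g : X → ℝ) (R : Finset X) (s lam e θ : ℝ) (hs : 0 < s)
    (hlam : 0 < lam) (hls : lam ≤ s) (he : 0 ≤ e) (he1 : e * (s - lam) < lam) (hθ : 0 ≤ θ)
    (hg : ∀ a ∈ R, 0 < g a) (hK : ∀ a ∈ R, ∑ b ∈ R, KK G a b * (s * g b) ≤ (1 + e) * g a)
    (hY : Yin G 0 (fun x => ind R x * (s * g x)) g R θ) :
    Yin G (fun x => ind R x * (s - lam)) (fun x => ind R x * (lam * g x)) g R
      ((1 + θ) / (1 - e * (s - lam) / lam) - 1) := by
  have hC := Pool.Agent.ABY.H10.cmp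
  have hV := Pool.Agent.ABY.H82.vex
  obtain ⟨r, hr⟩ : ∃ r : ℝ, lam = r * s := ⟨lam / s, by field_simp⟩
  subst hr
  have hr0 : 0 < r := by
    by_contra h
    push Not at h
    nlinarith
  have hr1 : r ≤ 1 := by
    by_contra h
    push Not at h
    nlinarith
  have hre : e * (1 - r) < r := by
    have h1 : s * (e * (1 - r)) < s * r := by nlinarith
    exact lt_of_mul_lt_mul_left h1 hs.le
  have hden : 1 - e * (s - r * s) / (r * s) = (r - e * (1 - r)) / r := by
    field_simp
  rw [hden]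
  obtain ⟨D, hD⟩ : ∃ D : ℝ, D = r - e * (1 - r) := ⟨_, rfl⟩
  have hD0 : 0 < D := by rw [hD]; linarith
  obtain ⟨A, hA⟩ : ∃ A : ℝ, A = (1 + θ) / (D / r) := ⟨_, rfl⟩
  have hA0 : 0 ≤ A := by rw [hA]; positivity
  have hAD : A * D = (1 + θ) * r := by
    rw [hA]
    field_simp
  rw [← hD, ← hA]
  have hPw : (fun x => ind R x * (s - r * s)) = fun x => ind R x * ((1 - r) * s) := by
    funext x
    ring
  rw [hPw]
  have hKK : ∀ a b, 0 ≤ KK G a b := fun a b => by
    unfold KK; positivity
  have hind : ∀ x, 0 ≤ ind R x := fun x => by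
    unfold ind; split_ifs <;> norm_num
  have hsum0 : ∀ a, ∑ b, KK G a b * (ind R b * (s * g b)) = ∑ b ∈ R, KK G a b * (s * g b) := by
    intro a
    have e8 : ∀ b, KK G a b * (ind R b * (s * g b)) =
        if b ∈ R then KK G a b * (s * g b) else 0 := by
      intro b
      unfold ind
      split_ifs
      · ring
      · ring
    rw [Finset.sum_congr rfl (fun b _ => e8 b), Finset.sum_ite_mem, Finset.univ_inter]
  have hsum : ∀ a, ∑ b, KK G a b * (ind R b * ((1 - r) * s)) * g b =
      (1 - r) * (∑ b, KK G a b * (ind R b * (s * g b))) := by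
    intro a
    rw [Finset.mul_sum]
    refine Finset.sum_congr rfl fun b _ => ?_
    ring
  have hK0 : ∀ a ∈ R, ∑ b, KK G a b * (ind R b * (s * g b)) ≤ (1 + e) * g a := by
    intro a ha
    rw [hsum0]
    exact hK a ha
  have hr1' : 0 ≤ 1 - r := by linarith
  have hKg : ∀ a ∈ R, ∑ b, KK G a b * (ind R b * ((1 - r) * s)) * g b ≤
      (1 - r) * (1 + e) * g a := by
    intro a ha
    rw [hsum, mul_assoc]
    exact mul_le_mul_of_nonneg_left (hK0 a ha) hr1'
  have hP : (∀ x, 0 ≤ ind R x * ((1 - r) * s)) ∧ ∀ x, x ∉ R → ind R x * ((1 - r) * s) = 0 := by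
    refine ⟨fun x => mul_nonneg (hind x) (mul_nonneg hr1' hs.le), fun x hx => ?_⟩
    unfold ind
    rw [if_neg hx, zero_mul]
  have hρ : 0 ≤ (1 - r) * (1 + e) ∧ (1 - r) * (1 + e) < 1 := by
    refine ⟨mul_nonneg hr1' (by linarith), ?_⟩
    nlinarith
  have c1 : Cmp (BB G) (KK G) (fun x => ind R x * ((1 - r) * s)) g R R ((1 - r) * (1 + e)) :=
    ⟨fun a b => (nBK G a b).le, hP, le_rfl, hg, hρ, hKg⟩
  have c2 : Cmp (KK G) (KK G) (fun x => ind R x * ((1 - r) * s)) g R R ((1 - r) * (1 + e)) :=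
    ⟨fun a b => by rw [Real.norm_of_nonneg (hKK a b)], hP, le_rfl, hg, hρ, hKg⟩
  obtain ⟨_, v1', _⟩ := hV hC ℂ X (BB G) (KK G) _ g R R _ c1
  obtain ⟨_, v2', _⟩ := hV hC ℝ X (KK G) (KK G) _ g R R _ c2
  have v1 := v1' (fun x => ind R x * (r * s * g x))
  have v2 := v2' (fun x => ind R x * (r * s * g x))
  clear v1' v2'
  have key := (hC ℂ X (BB G) (KK G) _ g R R _ c1).2
    (vir (BB G) (fun x => ind R x * ((1 - r) * s)) (fun x => ind R x * (r * s * g x)))
    (fun a => A * g a -
      vir (KK G) (fun x => ind R x * ((1 - r) * s)) (fun x => ind R x * (r * s * g x)) a)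
  generalize hbe : vir (BB G) (fun x => ind R x * ((1 - r) * s))
    (fun x => ind R x * (r * s * g x)) = be at *
  generalize hq : vir (KK G) (fun x => ind R x * ((1 - r) * s))
    (fun x => ind R x * (r * s * g x)) = q at *
  have hw : ∀ b, ind R b * (r * s * g b) = r * (ind R b * (s * g b)) := fun b => by ring
  have w1 := eqn' (BB G) (fun x => ind R x * ((1 - r) * s)) (fun x => ind R x * (r * s * g x))
    (fun x => ind R x * (s * g x)) r be v1 hw
  have w2 := eqn' (KK G) (fun x => ind R x * ((1 - r) * s)) (fun x => ind R x * (r * s * g x))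
    (fun x => ind R x * (s * g x)) r q v2 hw
  simp only [RCLike.ofReal_real_eq_id, id_eq] at w2
  have key2 := key (by
    intro a ha
    have b0 := hY a ha
    rw [vir_zero, vir_zero] at b0
    simp only [RCLike.ofReal_real_eq_id, id_eq] at b0
    have e2 := w2 a
    refine (congrArg norm (w1 a)).trans_le ?_
    have e0 : ‖((r : ℝ) : ℂ)‖ = r := by rw [Complex.norm_real, Real.norm_of_nonneg hr0.le]
    refine (norm_mul _ _).trans_le ?_
    refine (mul_le_mul_of_nonneg_right (le_of_eq e0) (norm_nonneg _)).trans ?_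
    have e5 : ∑ b, KK G a b * ((ind R b * ((1 - r) * s)) * (A * g b - q b)) =
        A * ((1 - r) * (∑ b, KK G a b * (ind R b * (s * g b)))) -
          ∑ b, KK G a b * ((ind R b * ((1 - r) * s)) * q b) := by
      rw [Finset.mul_sum, Finset.mul_sum, ← Finset.sum_sub_distrib]
      refine Finset.sum_congr rfl fun b _ => ?_
      ring
    rw [e5]
    have e9 := hK0 a ha
    have hga := hg a ha
    have e11 : A * (D * g a) ≤
        A * (g a - (1 - r) * (∑ b, KK G a b * (ind R b * (s * g b)))) := by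
      apply mul_le_mul_of_nonneg_left _ hA0
      have := mul_le_mul_of_nonneg_left e9 hr1'
      rw [hD]
      nlinarith
    have e12 : A * (D * g a) = (1 + θ) * r * g a := by rw [← mul_assoc, hAD]
    rw [e12] at e11
    rw [mul_sub] at e11
    have e13 := mul_le_mul_of_nonneg_left b0 hr0.le
    rw [mul_add] at e13
    nlinarith)
  intro a ha
  have key3 := key2 a ha
  have e1 : 1 + (A - 1) = A := by ring
  have key4 : ‖be a‖ ≤ A * g a - q a := key3
  rw [e1, hbe, hq]
  linarith

end Pool.Agent.ABY.H90
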